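import Pool.Agent.Q307.FTG.Three

set_option autoImplicit false
set_option linter.all false

/-! The levels of the free abelian topological group. -/

open Topology Filter Set

namespace Pool.Agent.Q307.FTG

open Pool.Agent.Q307.Yam

variable {X : Type*}

/-- `NN d A B c`: the multisets `A`, `B` can be matched with total distance `c`. -/
inductive NN (d : X → X → ℝ) : Multiset X → Multiset X → ℝ → Prop
  | zero : NN d 0 0 0
  | cons {a b : X} {A B : Multiset X} {c : ℝ} (h : NN d A B c) :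
      NN d (a ::ₘ A) (b ::ₘ B) (d a b + c)

section
variable {d : X → X → ℝ}

theorem NN.cast {A B : Multiset X} {c c' : ℝ} (h : NN d A B c) (hc : c = c') : NN d A B c' := hc ▸ h

theorem NN.cast' {A A' B B' : Multiset X} {c c' : ℝ} (h : NN d A B c) (hA : A = A') (hB : B = B')
    (hc : c = c') : NN d A' B' c' := by
  subst hA hB hc; exact h

theorem NN.card {A B : Multiset X} {c : ℝ} (h : NN d A B c) : A.card = B.card := by
  induction h with
  | zero => rfl
  | cons h ih => simp [ih]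

theorem NN.nonneg (hd : ∀ x y, 0 ≤ d x y) {A B : Multiset X} {c : ℝ} (h : NN d A B c) : 0 ≤ c := by
  induction h with
  | zero => exact le_refl _
  | cons h ih => exact add_nonneg (hd _ _) ih

theorem NN.symm (hd : ∀ x y, d x y = d y x) {A B : Multiset X} {c : ℝ} (h : NN d A B c) :
    NN d B A c := by
  induction h with
  | zero => exact NN.zero
  | cons h ih => exact (NN.cons ih).cast (by rw [hd])

theorem NN.inv_left {S B : Multiset X} {c : ℝ} (h : NN d S B c) :
    ∀ (a : X) (A : Multiset X), S = a ::ₘ A → ∃ (b : X) (B' : Multiset X) (c' : ℝ),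
      B = b ::ₘ B' ∧ NN d A B' c' ∧ c = d a b + c' := by
  induction h with
  | zero => intro a A h; exact absurd h.symm (Multiset.cons_ne_zero)
  | @cons a0 b0 A0 B0 c0 h0 ih =>
    intro a A hS
    rcases Multiset.cons_eq_cons.1 hS with ⟨rfl, rfl⟩ | ⟨hne, cs, h1, h2⟩
    · exact ⟨b0, B0, c0, rfl, h0, rfl⟩
    · obtain ⟨b, B', c', rfl, h3, rfl⟩ := ih a cs h1
      subst h2
      refine ⟨b, b0 ::ₘ B', d a0 b0 + c', Multiset.cons_swap _ _ _, NN.cons h3, by ring⟩

theorem NN.inv_right (hd : ∀ x y, d x y = d y x) {A : Multiset X} {c : ℝ} {b : X} {B : Multiset X}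
    (h : NN d A (b ::ₘ B) c) : ∃ (a : X) (A' : Multiset X) (c' : ℝ),
      A = a ::ₘ A' ∧ NN d A' B c' ∧ c = d a b + c' := by
  obtain ⟨a, A', c', h1, h2, h3⟩ := (h.symm hd).inv_left b B rfl
  exact ⟨a, A', c', h1, h2.symm hd, by rw [h3, hd]⟩

theorem NN.cancel (ok : Ok d (fun _ => 1)) {x : X} {A B : Multiset X} {c : ℝ}
    (h : NN d (x ::ₘ A) (x ::ₘ B) c) : ∃ c' ≤ c, NN d A B c' := by
  obtain ⟨b, B', c', h1, h2, rfl⟩ := h.inv_left x A rfl
  rcases Multiset.cons_eq_cons.1 h1 with ⟨rfl, rfl⟩ | ⟨hne, cs, h3, h4⟩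
  · exact ⟨c', by rw [ok.self]; linarith, h2⟩
  · subst h4
    obtain ⟨a, A', c'', h5, h6, rfl⟩ := h2.inv_right ok.symm
    subst h5 h3
    refine ⟨d a b + c'', ?_, NN.cons h6⟩
    have := ok.tri a x b
    linarith

theorem NN.cancel' (ok : Ok d (fun _ => 1)) (C : Multiset X) : ∀ {A B : Multiset X} {c : ℝ},
    NN d (C + A) (C + B) c → ∃ c' ≤ c, NN d A B c' := by
  induction C using Multiset.induction_on with
  | empty => intro A B c h; exact ⟨c, le_refl _, by simpa using h⟩
  | cons x C ih =>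
    intro A B c h
    obtain ⟨c1, hc1, h1⟩ := NN.cancel ok (x := x) (A := C + A) (B := C + B)
      (h.cast' (by simp) (by simp) rfl)
    obtain ⟨c2, hc2, h2⟩ := ih h1
    exact ⟨c2, hc2.trans hc1, h2⟩

theorem NN.add {A B A' B' : Multiset X} {c c' : ℝ} (h : NN d A B c) (h' : NN d A' B' c') :
    NN d (A + A') (B + B') (c + c') := by
  induction h with
  | zero => exact h'.cast' (by simp) (by simp) (by simp)
  | @cons a b A0 B0 c0 h ih =>
    exact (NN.cons (a := a) (b := b) ih).cast' (by simp) (by simp) (by ring)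

theorem NN.refl (hd : ∀ x, d x x = 0) (C : Multiset X) : NN d C C 0 := by
  induction C using Multiset.induction_on with
  | empty => exact NN.zero
  | cons x C ih => exact (NN.cons ih).cast (by rw [hd]; simp)

end

/-- the value of a pair of multisets -/
def val (A B : Multiset X) : FreeAbelianGroup X :=
  (A.map FreeAbelianGroup.of).sum - (B.map FreeAbelianGroup.of).sum

theorem val_add (A B A' B' : Multiset X) : val (A + A') (B + B') = val A B + val A' B' := by
  simp only [val, Multiset.map_add, Multiset.sum_add]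
  abel

theorem val_neg (A B : Multiset X) : - val A B = val B A := by
  simp only [val]; abel

theorem sum_inj {A B : Multiset X}
    (h : (A.map (FreeAbelianGroup.of)).sum = (B.map (FreeAbelianGroup.of)).sum) : A = B := by
  classical
  rw [Multiset.ext]
  intro x
  have key : ∀ C : Multiset X, FreeAbelianGroup.lift (fun y => if x = y then (1 : ℤ) else 0)
      ((C.map (FreeAbelianGroup.of)).sum) = (C.count x : ℤ) := by
    intro C
    induction C using Multiset.induction_on with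
    | empty => simp
    | cons y C ih =>
      rw [Multiset.map_cons, Multiset.sum_cons, map_add, ih, FreeAbelianGroup.lift_apply_of,
        Multiset.count_cons]
      by_cases hxy : x = y
      · simp [hxy]; ring
      · simp [hxy]
  have h1 := congrArg (FreeAbelianGroup.lift (fun y => if x = y then (1 : ℤ) else 0)) h
  rw [key, key] at h1
  exact_mod_cast h1

theorem val_eq {A B A' B' : Multiset X} (h : val A B = val A' B') : A + B' = A' + B := by
  apply sum_inj
  simp only [Multiset.map_add, Multiset.sum_add]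
  simp only [val] at h
  rw [sub_eq_sub_iff_add_eq_add] at h
  exact h

section
variable {d : X → X → ℝ}

/-- the balls -/
def BA (d : X → X → ℝ) (ε : ℝ) : Set (FreeAbelianGroup X) :=
  {g | ∃ (A B : Multiset X) (c : ℝ), val A B = g ∧ NN d A B c ∧ c < ε}

theorem mem_BA (ok : Ok d (fun _ => 1)) {ε : ℝ} {A B : Multiset X} (h : val A B ∈ BA d ε) :
    ∃ c, NN d A B c ∧ c < ε := by
  obtain ⟨A', B', c, h1, h2, h3⟩ := h
  have h4 : A' + B = A + B' := val_eq h1
  have h5 : NN d (A' + B) (B' + B) (c + 0) := h2.add (NN.refl ok.self B)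
  have h6 : NN d (B' + A) (B' + B) c := h5.cast' (by rw [h4, add_comm]) rfl (add_zero c)
  obtain ⟨c', hc', h7⟩ := h6.cancel' ok
  exact ⟨c', h7, lt_of_le_of_lt hc' h3⟩

theorem zero_mem_BA {ε : ℝ} (hε : 0 < ε) : (0 : FreeAbelianGroup X) ∈ BA d ε :=
  ⟨0, 0, 0, by simp [val], NN.zero, hε⟩

theorem BA_mono {ε δ : ℝ} (h : ε ≤ δ) : BA d ε ⊆ BA d δ := by
  rintro g ⟨A, B, c, h1, h2, h3⟩
  exact ⟨A, B, c, h1, h2, lt_of_lt_of_le h3 h⟩

/-- the filter basis -/
@[reducible] def basisA (ok : Ok d (fun _ => 1)) : AddGroupFilterBasis (FreeAbelianGroup X) where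
  sets := {S | ∃ ε : ℝ, 0 < ε ∧ S = BA d ε}
  nonempty := ⟨_, 1, one_pos, rfl⟩
  inter_sets := by
    rintro _ _ ⟨ε, hε, rfl⟩ ⟨δ, hδ, rfl⟩
    exact ⟨_, ⟨min ε δ, lt_min hε hδ, rfl⟩, fun g hg =>
      ⟨BA_mono (min_le_left _ _) hg, BA_mono (min_le_right _ _) hg⟩⟩
  zero' := by
    rintro _ ⟨ε, hε, rfl⟩
    exact zero_mem_BA hε
  add' := by
    rintro _ ⟨ε, hε, rfl⟩
    refine ⟨_, ⟨ε / 2, by linarith, rfl⟩, ?_⟩
    rintro _ ⟨_, ⟨A, B, c, rfl, h2, h3⟩, _, ⟨A', B', c', rfl, h2', h3'⟩, rfl⟩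
    exact ⟨A + A', B + B', c + c', val_add _ _ _ _, h2.add h2', by linarith⟩
  neg' := by
    rintro _ ⟨ε, hε, rfl⟩
    refine ⟨_, ⟨ε, hε, rfl⟩, ?_⟩
    rintro _ ⟨A, B, c, rfl, h2, h3⟩
    exact ⟨B, A, c, (val_neg A B).symm, h2.symm ok.symm, h3⟩
  conj' := by
    rintro g₀ _ ⟨ε, hε, rfl⟩
    refine ⟨_, ⟨ε, hε, rfl⟩, ?_⟩
    intro g hg
    simpa using hg

/-- the group topology -/
noncomputable def gtA (ok : Ok d (fun _ => 1)) : AddGroupTopology (FreeAbelianGroup X) :=
  letI := (basisA ok).topology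
  { toTopologicalSpace := (basisA ok).topology
    toIsTopologicalAddGroup := (basisA ok).isTopologicalAddGroup }

theorem nhds_gtA (ok : Ok d (fun _ => 1)) {ε : ℝ} (hε : 0 < ε) :
    BA d ε ∈ @nhds _ (gtA ok).toTopologicalSpace (0 : FreeAbelianGroup X) := by
  have h := (basisA ok).nhds_zero_hasBasis
  exact (h.mem_of_mem (i := BA d ε) ⟨ε, hε, rfl⟩)

theorem of_continuousA [TopologicalSpace X] (hd : Pm d) :
    @Continuous X (FreeAbelianGroup X) _ (gtA hd.ok).toTopologicalSpace FreeAbelianGroup.of := by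
  letI : TopologicalSpace (FreeAbelianGroup X) := (basisA hd.ok).topology
  show Continuous (FreeAbelianGroup.of : X → FreeAbelianGroup X)
  rw [continuous_iff_continuousAt]
  intro x
  have h := (basisA hd.ok).nhds_hasBasis (FreeAbelianGroup.of x)
  show Tendsto _ _ _
  rw [h.tendsto_right_iff]
  rintro _ ⟨ε, hε, rfl⟩
  filter_upwards [hd.cont x ε hε] with y hy
  refine ⟨FreeAbelianGroup.of y - FreeAbelianGroup.of x, ?_, by simp⟩
  refine ⟨{y}, {x}, d y x + 0, by simp [val], ?_, by rw [hd.ok.symm]; simpa using hy⟩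
  exact NN.cons NN.zero

end

/-- the free abelian group topology -/
noncomputable def freeTopA (X : Type*) [TopologicalSpace X] :
    AddGroupTopology (FreeAbelianGroup X) :=
  sInf {t : AddGroupTopology (FreeAbelianGroup X) |
    @Continuous X (FreeAbelianGroup X) _ t.toTopologicalSpace FreeAbelianGroup.of}

theorem continuous_ofA (X : Type*) [TopologicalSpace X] :
    @Continuous X (FreeAbelianGroup X) _ (freeTopA X).toTopologicalSpace FreeAbelianGroup.of := by
  unfold freeTopA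
  rw [AddGroupTopology.toTopologicalSpace_sInf]
  rw [continuous_sInf_rng]
  rintro _ ⟨t, ht, rfl⟩
  exact ht

theorem freeTopA_le [TopologicalSpace X] (t : AddGroupTopology (FreeAbelianGroup X))
    (ht : @Continuous X (FreeAbelianGroup X) _ t.toTopologicalSpace FreeAbelianGroup.of) :
    (freeTopA X).toTopologicalSpace ≤ t.toTopologicalSpace := by
  have h : freeTopA X ≤ t := sInf_le ht
  exact h

/-- matchings of tuples -/
theorem exists_perm {d : X → X → ℝ} (ok : Ok d (fun _ => 1)) : ∀ (k : ℕ) (a b : Fin k → X) (c : ℝ),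
    NN d (List.ofFn a : Multiset X) (List.ofFn b : Multiset X) c →
    ∃ σ : Equiv.Perm (Fin k), ∀ i, d (a i) (b (σ i)) ≤ c := by
  intro k
  induction k with
  | zero => intro a b c _; exact ⟨Equiv.refl _, fun i => i.elim0⟩
  | succ k ih =>
    intro a b c h
    rw [List.ofFn_succ, ← Multiset.cons_coe] at h
    obtain ⟨b', B', c', h1, h2, rfl⟩ := h.inv_left _ _ rfl
    have h3 : b' ∈ (List.ofFn b : Multiset X) := by rw [h1]; exact Multiset.mem_cons_self _ _
    obtain ⟨j, rfl⟩ := List.mem_ofFn.1 (Multiset.mem_coe.1 h3)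
    have h4 : (List.ofFn b : Multiset X) = (List.ofFn (b ∘ Equiv.swap 0 j) : Multiset X) :=
      (Multiset.coe_eq_coe.2 (Equiv.Perm.ofFn_comp_perm (Equiv.swap 0 j) b)).symm
    rw [h4, List.ofFn_succ, ← Multiset.cons_coe] at h1
    simp only [Function.comp, Equiv.swap_apply_left] at h1
    have h5 := (Multiset.cons_inj_right _).1 h1
    rw [← h5] at h2
    obtain ⟨σ, hσ⟩ := ih _ _ _ h2
    have h6 := h2.nonneg ok.nonneg
    have h7 := ok.nonneg (a 0) (b j)
    refine ⟨Equiv.Perm.decomposeFin.symm (j, σ), ?_⟩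
    intro i
    refine Fin.cases ?_ (fun i => ?_) i
    · rw [Equiv.Perm.decomposeFin_symm_apply_zero]
      linarith
    · rw [Equiv.Perm.decomposeFin_symm_apply_succ]
      have := hσ i
      linarith

theorem val_ofFn {k : ℕ} (a b : Fin k → X) : val (List.ofFn a : Multiset X) (List.ofFn b) =
    ∑ i, (FreeAbelianGroup.of (a i) - FreeAbelianGroup.of (b i)) := by
  rw [Finset.sum_sub_distrib]
  simp only [val, Multiset.map_coe, Multiset.sum_coe, List.map_ofFn, List.sum_ofFn, Function.comp]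

/-- the words of length at most `n` -/
def LevA (n : ℕ) (X : Type*) : Set (FreeAbelianGroup X) :=
  {g | ∃ A B : Multiset X, A.card + B.card ≤ n ∧ val A B = g}

section top

variable [TopologicalSpace X]

/-- the free topology, as an instance -/
noncomputable local instance : TopologicalSpace (FreeAbelianGroup X) :=
  (freeTopA X).toTopologicalSpace

local instance : IsTopologicalAddGroup (FreeAbelianGroup X) :=
  (freeTopA X).toIsTopologicalAddGroup

theorem BA_nhds {d : X → X → ℝ} (hd : Pm d) {ε : ℝ} (hε : 0 < ε) :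
    BA d ε ∈ 𝓝 (0 : FreeAbelianGroup X) :=
  nhds_mono (freeTopA_le _ (of_continuousA hd)) (nhds_gtA hd.ok hε)

theorem exists_pmA {U : Set (FreeAbelianGroup X)} (hU : U ∈ 𝓝 (0 : FreeAbelianGroup X)) :
    ∃ d : X → X → ℝ, Pm d ∧ ∀ x y, d x y < 1 →
      FreeAbelianGroup.of x - FreeAbelianGroup.of y ∈ U := by
  obtain ⟨d, hd, h⟩ := exists_pm (G := Multiplicative (FreeAbelianGroup X))
    (f := fun x : X => Multiplicative.ofAdd (FreeAbelianGroup.of x))
    (continuous_ofAdd.comp (continuous_ofA X)) (U := Multiplicative.toAdd ⁻¹' U)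
    (continuous_toAdd.tendsto _ hU)
  refine ⟨d, hd, fun x y hxy => ?_⟩
  have := (h x y hxy).2
  simp only [mem_preimage, toAdd_mul, toAdd_ofAdd, toAdd_inv, ← sub_eq_add_neg] at this
  exact this

theorem near_perm {U : Set (FreeAbelianGroup X)} (hU : U ∈ 𝓝 (0 : FreeAbelianGroup X)) :
    ∃ V ∈ 𝓝 (0 : FreeAbelianGroup X), ∀ (k : ℕ) (a b : Fin k → X),
      ∑ i, (FreeAbelianGroup.of (a i) - FreeAbelianGroup.of (b i)) ∈ V →
      ∃ σ : Equiv.Perm (Fin k), ∀ i,
        FreeAbelianGroup.of (a i) - FreeAbelianGroup.of (b (σ i)) ∈ U := by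
  obtain ⟨d, hd, h⟩ := exists_pmA hU
  refine ⟨BA d 1, BA_nhds hd one_pos, fun k a b hab => ?_⟩
  rw [← val_ofFn] at hab
  obtain ⟨c, h1, h2⟩ := mem_BA hd.ok hab
  obtain ⟨σ, hσ⟩ := exists_perm hd.ok k a b c h1
  exact ⟨σ, fun i => h _ _ (lt_of_le_of_lt (hσ i) h2)⟩

theorem seq_perm {k : ℕ} {a b : ℕ → Fin k → X}
    (h : Tendsto (fun m => ∑ i, (FreeAbelianGroup.of (a m i) - FreeAbelianGroup.of (b m i))) atTop
      (𝓝 (0 : FreeAbelianGroup X))) :
    ∃ φ : ℕ → ℕ, StrictMono φ ∧ ∃ σ : Equiv.Perm (Fin k), ∀ i,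
      Tendsto (fun m => FreeAbelianGroup.of (a (φ m) i) - FreeAbelianGroup.of (b (φ m) (σ i))) atTop
      (𝓝 (0 : FreeAbelianGroup X)) := by
  classical
  haveI : Nonempty {U : Set (FreeAbelianGroup X) // U ∈ 𝓝 (0 : FreeAbelianGroup X)} :=
    ⟨⟨univ, univ_mem⟩⟩
  obtain ⟨σ, φ, hφ, h1⟩ := split
    (I := {U : Set (FreeAbelianGroup X) // U ∈ 𝓝 (0 : FreeAbelianGroup X)})
    (M := Equiv.Perm (Fin k)) (fun U U' => U'.1 ⊆ U.1)
    (fun U U' => ⟨⟨U.1 ∩ U'.1, inter_mem U.2 U'.2⟩, inter_subset_left, inter_subset_right⟩)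
    (fun U σ m => ∀ i, FreeAbelianGroup.of (a m i) - FreeAbelianGroup.of (b m (σ i)) ∈ U.1)
    (fun U U' σ m hUU hc i => hUU (hc i))
    (by
      rintro ⟨U, hU⟩
      obtain ⟨V, hV, h2⟩ := near_perm hU
      filter_upwards [h hV] with m hm
      exact h2 k _ _ hm)
  refine ⟨φ, hφ, σ, fun i U hU => ?_⟩
  rw [mem_map]
  filter_upwards [h1 ⟨U, hU⟩] with m hm
  exact hm i

theorem pair_mem_LevA (x y : X) :
    FreeAbelianGroup.of x - FreeAbelianGroup.of y ∈ LevA 2 X :=
  ⟨{x}, {y}, by simp, by simp [val]⟩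

/-- convergent sequences of the level `n` -/
theorem seq_levA {n : ℕ} {g : FreeAbelianGroup X} (hg : g ∈ LevA n X)
    {h : ℕ → FreeAbelianGroup X} (hh : ∀ m, h m ∈ LevA n X) (hlim : Tendsto h atTop (𝓝 g)) :
    ∃ φ : ℕ → ℕ, StrictMono φ ∧ ∃ k ≤ n, ∃ p : Fin k → ℕ → FreeAbelianGroup X,
      (∀ i m, p i m ∈ LevA 2 X) ∧ (∀ i, Tendsto (p i) atTop (𝓝 0)) ∧
      ∀ m, h (φ m) = g + ∑ i, p i m := by
  classical
  obtain ⟨A0, B0, hAB0, rfl⟩ := hg
  choose A B hAB hval using hh
  have h0 : Tendsto (fun m => h m - val A0 B0) atTop (𝓝 0) := by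
    have := hlim.sub_const (val A0 B0)
    rwa [sub_self] at this
  have h1 : ∀ m, h m - val A0 B0 = val (A m + B0) (B m + A0) := by
    intro m
    rw [val_add, hval m, sub_eq_add_neg, val_neg]
  have h2 : ∀ᶠ m in atTop, (A m + B0).card = (B m + A0).card := by
    filter_upwards [h0 (BA_nhds (pm_zero (X := X)) one_pos)] with m hm
    rw [mem_preimage, h1 m] at hm
    obtain ⟨c, h3, _⟩ := mem_BA (pm_zero (X := X)).ok hm
    exact h3.card
  obtain ⟨k, θ, hθ, h3⟩ := split (I := Unit) (M := Fin (n + 1)) (fun _ _ => True)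
    (fun _ _ => ⟨(), trivial, trivial⟩)
    (fun _ k m => (A m + B0).card = k ∧ (B m + A0).card = k) (fun _ _ _ _ _ hc => hc)
    (by
      intro _
      filter_upwards [h2] with m hm
      have := hAB m
      simp only [Multiset.card_add] at hm ⊢
      exact ⟨⟨(A m).card + B0.card, by omega⟩, rfl, by simp only; omega⟩)
  obtain ⟨N, hN⟩ := eventually_atTop.1 (h3 ())
  have h4 : ∀ m, ∃ a b : Fin k → X, (A (θ (m + N)) + B0) = (List.ofFn a : Multiset X) ∧
      (B (θ (m + N)) + A0) = (List.ofFn b : Multiset X) := by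
    intro m
    obtain ⟨h5, h6⟩ := hN (m + N) (by simp)
    have key : ∀ C : Multiset X, C.card = (k : ℕ) → ∃ a : Fin k → X,
        C = (List.ofFn a : Multiset X) := by
      intro C hC
      obtain ⟨L, rfl⟩ := Quot.exists_rep C
      have hL : L.length = (k : ℕ) := hC
      refine ⟨fun i => L.get (i.cast hL.symm), ?_⟩
      have : List.ofFn (fun i : Fin k => L.get (i.cast hL.symm)) = L := by
        apply List.ext_getElem
        · simp [hL]
        · intro i h1 h2; simp
      rw [this]; rfl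
    obtain ⟨a, ha⟩ := key _ h5
    obtain ⟨b, hb⟩ := key _ h6
    exact ⟨a, b, ha, hb⟩
  choose a b ha hb using h4
  have h5 : ∀ m, h (θ (m + N)) - val A0 B0 =
      ∑ i, (FreeAbelianGroup.of (a m i) - FreeAbelianGroup.of (b m i)) := by
    intro m
    rw [h1, ha, hb, val_ofFn]
  have hθN : StrictMono (fun m => θ (m + N)) := fun p q hpq => hθ (by omega)
  have h6 : Tendsto (fun m => ∑ i, (FreeAbelianGroup.of (a m i) - FreeAbelianGroup.of (b m i)))
      atTop (𝓝 (0 : FreeAbelianGroup X)) :=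
    (h0.comp hθN.tendsto_atTop).congr (fun m => h5 m)
  obtain ⟨ψ, hψ, σ, h7⟩ := seq_perm h6
  refine ⟨fun m => θ (ψ m + N), fun p q hpq => hθN (hψ hpq), k, by omega,
    fun i m => FreeAbelianGroup.of (a (ψ m) i) - FreeAbelianGroup.of (b (ψ m) (σ i)),
    fun i m => pair_mem_LevA _ _, h7, fun m => ?_⟩
  have h8 := h5 (ψ m)
  rw [sub_eq_iff_eq_add'] at h8
  rw [h8]
  congr 1
  rw [Finset.sum_sub_distrib, Finset.sum_sub_distrib]
  congr 1
  exact (Equiv.sum_comp σ (fun i => FreeAbelianGroup.of (b (ψ m) i))).symm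

end top

end Pool.Agent.Q307.FTG
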