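import Pool.Agent.Q307.FTG.Ab

set_option autoImplicit false
set_option linter.all false

/-! Countable networks of the levels. -/

open Topology Filter Set

namespace Pool.Agent.Q307.FTG

open Pool.Agent.Q307.Yam

/-- a countable cs-network at a point -/
def CsfAt {Y : Type*} [TopologicalSpace Y] (y : Y) : Prop :=
  ∃ Ps : Set (Set Y), Ps.Countable ∧ (∀ P ∈ Ps, y ∈ P) ∧
    ∀ u : ℕ → Y, Tendsto u atTop (𝓝 y) → ∀ U : Set Y, IsOpen U → y ∈ U →
      ∃ P ∈ Ps, P ⊆ U ∧ ∀ᶠ n in atTop, u n ∈ P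

/-- the same for a subset, in the ambient space -/
def CsA {Y : Type*} [TopologicalSpace Y] (A : Set Y) (y : Y) : Prop :=
  ∃ Ps : Set (Set Y), Ps.Countable ∧ (∀ P ∈ Ps, y ∈ P) ∧
    ∀ u : ℕ → Y, (∀ n, u n ∈ A) → Tendsto u atTop (𝓝 y) → ∀ U ∈ 𝓝 y,
      ∃ P ∈ Ps, P ∩ A ⊆ U ∧ ∀ᶠ n in atTop, u n ∈ P

theorem csfAt_iff {Y : Type*} [TopologicalSpace Y] {A : Set Y} (a : A) :
    CsfAt a ↔ CsA A (a : Y) := by
  constructor
  · rintro ⟨Ps, h1, h2, h3⟩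
    refine ⟨(fun P => Subtype.val '' P) '' Ps, h1.image _, ?_, ?_⟩
    · rintro _ ⟨P, hP, rfl⟩
      exact ⟨a, h2 P hP, rfl⟩
    · intro u hu hlim U hU
      obtain ⟨V, hVU, hV, haV⟩ := mem_nhds_iff.1 hU
      obtain ⟨P, hP, hPU, h5⟩ := h3 (fun n => ⟨u n, hu n⟩)
        (by rw [tendsto_subtype_rng]; exact hlim) (Subtype.val ⁻¹' V)
        (hV.preimage continuous_subtype_val) haV
      refine ⟨_, ⟨P, hP, rfl⟩, ?_, ?_⟩
      · rintro _ ⟨⟨p, hp, rfl⟩, _⟩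
        exact hVU (hPU hp)
      · filter_upwards [h5] with n hn
        exact ⟨_, hn, rfl⟩
  · rintro ⟨Ps, h1, h2, h3⟩
    refine ⟨(fun P => Subtype.val ⁻¹' P) '' Ps, h1.image _, ?_, ?_⟩
    · rintro _ ⟨P, hP, rfl⟩
      exact h2 P hP
    · intro u hlim U hU haU
      obtain ⟨V, hV, rfl⟩ := isOpen_induced_iff.1 hU
      obtain ⟨P, hP, hPU, h5⟩ := h3 (fun n => (u n : Y)) (fun n => (u n).2)
        (tendsto_subtype_rng.1 hlim) V (hV.mem_nhds haU)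
      exact ⟨_, ⟨P, hP, rfl⟩, fun p hp => hPU ⟨hp, p.2⟩, h5⟩

theorem CsA.mono {Y : Type*} [TopologicalSpace Y] {A A' : Set Y} (h : A' ⊆ A) {y : Y}
    (hA : CsA A y) : CsA A' y := by
  obtain ⟨Ps, h1, h2, h3⟩ := hA
  refine ⟨Ps, h1, h2, fun u hu hlim U hU => ?_⟩
  obtain ⟨P, hP, hPU, h4⟩ := h3 u (fun n => h (hu n)) hlim U hU
  exact ⟨P, hP, fun p hp => hPU ⟨hp.1, h hp.2⟩, h4⟩

section
variable {G : Type*} [AddCommGroup G] [TopologicalSpace G] [IsTopologicalAddGroup G]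

theorem sums_small : ∀ (n : ℕ), ∀ U ∈ 𝓝 (0 : G), ∃ V ∈ 𝓝 (0 : G), ∀ k ≤ n, ∀ p : Fin k → G,
    (∀ i, p i ∈ V) → ∑ i, p i ∈ U := by
  intro n
  induction n with
  | zero =>
    intro U hU
    refine ⟨univ, univ_mem, fun k hk p _ => ?_⟩
    obtain rfl : k = 0 := by omega
    simpa using mem_of_mem_nhds hU
  | succ n ih =>
    intro U hU
    obtain ⟨V1, hV1, h1⟩ := exists_nhds_zero_half hU
    obtain ⟨V2, hV2, h2⟩ := ih V1 hV1
    refine ⟨V1 ∩ V2, inter_mem hV1 hV2, fun k hk p hp => ?_⟩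
    cases k with
    | zero => simpa using mem_of_mem_nhds hU
    | succ k =>
      rw [Fin.sum_univ_succ]
      exact h1 _ (hp 0).1 _ (h2 k (by omega) _ (fun i => (hp i.succ).2))

theorem sums_small' (n : ℕ) {g : G} {U : Set G} (hU : U ∈ 𝓝 g) : ∃ V ∈ 𝓝 (0 : G),
    ∀ k ≤ n, ∀ p : Fin k → G, (∀ i, p i ∈ V) → g + ∑ i, p i ∈ U := by
  have h1 : Tendsto (fun h : G => g + h) (𝓝 0) (𝓝 g) := by
    have : Tendsto (fun h : G => g + h) (𝓝 0) (𝓝 (g + 0)) :=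
      (continuous_const.add continuous_id).tendsto 0
    rwa [add_zero] at this
  obtain ⟨V, hV, h2⟩ := sums_small n _ (h1 hU)
  exact ⟨V, hV, fun k hk p hp => h2 k hk p hp⟩

/-- sequences of `L` converging to `g` split into sequences of `L2` converging to zero -/
def Splits (L2 L : Set G) (g : G) (n : ℕ) : Prop :=
  ∀ h : ℕ → G, (∀ m, h m ∈ L) → Tendsto h atTop (𝓝 g) →
    ∃ φ : ℕ → ℕ, StrictMono φ ∧ ∃ k ≤ n, ∃ p : Fin k → ℕ → G,
      (∀ i m, p i m ∈ L2) ∧ (∀ i, Tendsto (p i) atTop (𝓝 0)) ∧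
      ∀ m, h (φ m) = g + ∑ i, p i m

theorem snA_of_splits {L2 L : Set G} {g : G} {n : ℕ} (hs : Splits L2 L g n)
    (h2 : SnA L2 (0 : G)) : SnA L g := by
  obtain ⟨Ps, hc, hseq, hsm, hdir⟩ := h2
  let R : Set G → Set G := fun P => {h | ∃ k ≤ n, ∃ p : Fin k → G, (∀ i, p i ∈ P ∩ L2) ∧
    h = g + ∑ i, p i}
  refine ⟨R '' Ps, hc.image _, ?_, ?_, ?_⟩
  · rintro _ ⟨P, hP, rfl⟩
    refine ⟨⟨0, Nat.zero_le _, fun i => i.elim0, fun i => i.elim0, by simp⟩, fun u hu hlim => ?_⟩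
    by_contra hcon
    rw [not_eventually] at hcon
    obtain ⟨θ, hθ, hθ'⟩ := extraction_of_frequently_atTop hcon
    obtain ⟨φ, hφ, k, hk, p, hp1, hp2, hp3⟩ := hs (u ∘ θ) (fun m => hu _)
      (hlim.comp hθ.tendsto_atTop)
    have h3 : ∀ᶠ m in atTop, ∀ i, p i m ∈ P :=
      eventually_all.2 fun i => (hseq P hP).2 (p i) (hp1 i) (hp2 i)
    obtain ⟨m, hm⟩ := h3.exists
    exact hθ' (φ m) ⟨k, hk, fun i => p i m, fun i => ⟨hm i, hp1 i m⟩, hp3 m⟩
  · intro U hU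
    obtain ⟨V, hV, hV'⟩ := sums_small' n hU
    obtain ⟨P, hP, hPV⟩ := hsm V hV
    refine ⟨_, ⟨P, hP, rfl⟩, ?_⟩
    rintro _ ⟨⟨k, hk, p, hp, rfl⟩, _⟩
    exact hV' k hk p (fun i => hPV (hp i))
  · rintro _ ⟨P, hP, rfl⟩ _ ⟨Q, hQ, rfl⟩
    obtain ⟨T, hT, hTPQ⟩ := hdir P hP Q hQ
    refine ⟨_, ⟨T, hT, rfl⟩, ?_⟩
    rintro _ ⟨k, hk, p, hp, rfl⟩
    exact ⟨⟨k, hk, p, fun i => ⟨(hTPQ (hp i).1).1, (hp i).2⟩, rfl⟩,
      ⟨k, hk, p, fun i => ⟨(hTPQ (hp i).1).2, (hp i).2⟩, rfl⟩⟩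

theorem csA_of_splits {L2 L : Set G} {g : G} {n : ℕ} (h0 : (0 : G) ∈ L2) (hs : Splits L2 L g n)
    (h2 : CsA L2 (0 : G)) : CsA L g := by
  classical
  obtain ⟨Ps, hc, hmem, hseq⟩ := h2
  have hne : Ps.Nonempty := by
    obtain ⟨P, hP, _⟩ := hseq (fun _ => 0) (fun _ => h0) tendsto_const_nhds univ univ_mem
    exact ⟨P, hP⟩
  obtain ⟨P, rfl⟩ := hc.exists_eq_range hne
  let R : Finset ℕ → Set G := fun F => {h | ∃ k ≤ n, ∃ p : Fin k → G,
    (∀ i, p i ∈ L2 ∧ ∃ j ∈ F, p i ∈ P j) ∧ h = g + ∑ i, p i}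
  refine ⟨range R, countable_range R, ?_, ?_⟩
  · rintro _ ⟨F, rfl⟩
    exact ⟨0, Nat.zero_le _, fun i => i.elim0, fun i => i.elim0, by simp⟩
  · intro u hu hlim U hU
    obtain ⟨V, hV, hV'⟩ := sums_small' n hU
    let F : ℕ → Finset ℕ := fun m => (Finset.range m).filter (fun j => P j ∩ L2 ⊆ V)
    by_cases hex : ∃ m, ∀ᶠ q in atTop, u q ∈ R (F m)
    · obtain ⟨m, hm⟩ := hex
      refine ⟨_, ⟨F m, rfl⟩, ?_, hm⟩
      rintro _ ⟨⟨k, hk, p, hp, rfl⟩, _⟩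
      refine hV' k hk p (fun i => ?_)
      obtain ⟨h3, j, hj, h4⟩ := hp i
      exact (Finset.mem_filter.1 hj).2 ⟨h4, h3⟩
    · exfalso
      push Not at hex
      obtain ⟨θ, hθ, hθ'⟩ := extraction_forall_of_frequently hex
      obtain ⟨φ, hφ, k, hk, p, hp1, hp2, hp3⟩ := hs (u ∘ θ) (fun m => hu _)
        (hlim.comp hθ.tendsto_atTop)
      have h3 : ∀ i : Fin k, ∃ j, P j ∩ L2 ⊆ V ∧ ∀ᶠ m in atTop, p i m ∈ P j := by
        intro i
        obtain ⟨_, ⟨j, rfl⟩, h4, h5⟩ := hseq (p i) (hp1 i) (hp2 i) V hV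
        exact ⟨j, h4, h5⟩
      choose j hj1 hj2 using h3
      have h4 : ∀ᶠ m in atTop, ∀ i, p i m ∈ P (j i) ∧ j i < φ m := by
        refine eventually_all.2 fun i => ?_
        filter_upwards [hj2 i, hφ.tendsto_atTop.eventually (eventually_gt_atTop (j i))] with m m1 m2
        exact ⟨m1, m2⟩
      obtain ⟨m, hm⟩ := h4.exists
      refine hθ' (φ m) ⟨k, hk, fun i => p i m, fun i => ⟨hp1 i m, j i, ?_, (hm i).1⟩, hp3 m⟩
      exact Finset.mem_filter.2 ⟨Finset.mem_range.2 (hm i).2, hj1 i⟩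

end

/-! ### the abelian levels -/

theorem LevA_mono {X : Type*} {m n : ℕ} (h : m ≤ n) : LevA m X ⊆ LevA n X := by
  rintro g ⟨A, B, h1, h2⟩
  exact ⟨A, B, h1.trans h, h2⟩

theorem zero_mem_LevA {X : Type*} (n : ℕ) : (0 : FreeAbelianGroup X) ∈ LevA n X :=
  ⟨0, 0, by simp, by simp [val]⟩

theorem snf_levA {X : Type*} [TopologicalSpace X] (n : ℕ) :
    letI : TopologicalSpace (FreeAbelianGroup X) := (freeTopA X).toTopologicalSpace
    SnA (LevA 2 X) (0 : FreeAbelianGroup X) → ∀ g ∈ LevA n X, SnA (LevA n X) g := by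
  intro h g hg
  letI : TopologicalSpace (FreeAbelianGroup X) := (freeTopA X).toTopologicalSpace
  haveI : IsTopologicalAddGroup (FreeAbelianGroup X) := (freeTopA X).toIsTopologicalAddGroup
  exact snA_of_splits (L2 := LevA 2 X) (n := n) (fun h hh hlim => seq_levA hg hh hlim) h

theorem csf_levA {X : Type*} [TopologicalSpace X] (n : ℕ) :
    letI : TopologicalSpace (FreeAbelianGroup X) := (freeTopA X).toTopologicalSpace
    CsA (LevA 2 X) (0 : FreeAbelianGroup X) → ∀ g ∈ LevA n X, CsA (LevA n X) g := by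
  intro h g hg
  letI : TopologicalSpace (FreeAbelianGroup X) := (freeTopA X).toTopologicalSpace
  haveI : IsTopologicalAddGroup (FreeAbelianGroup X) := (freeTopA X).toIsTopologicalAddGroup
  exact csA_of_splits (L2 := LevA 2 X) (n := n) (zero_mem_LevA 2)
    (fun h hh hlim => seq_levA hg hh hlim) h

/-! ### the level 3 of the free topological group -/

theorem exists_pm_sep {X : Type*} [TopologicalSpace X] [T35Space X] (x y : X) (hxy : x ≠ y) :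
    ∃ d : X → X → ℝ, Pm d ∧ 1 ≤ d x y := by
  obtain ⟨f, hf, hx, hy⟩ := CompletelyRegularSpace.completely_regular x {y} isClosed_singleton
    (by simpa using hxy)
  have hy' : f y = 1 := hy rfl
  have hf' : Continuous (fun z => ((f z : unitInterval) : ℝ)) := continuous_subtype_val.comp hf
  refine ⟨fun a b => |(f a : ℝ) - (f b : ℝ)|, ⟨⟨fun a => by simp, fun a b => abs_nonneg _,
    fun a b => abs_sub_comm _ _, fun a b c => abs_sub_le _ _ _, fun _ => le_refl _⟩, ?_⟩, ?_⟩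
  · intro a ε hε
    have h1 : Continuous (fun z => |(f a : ℝ) - (f z : ℝ)|) := (continuous_const.sub hf').abs
    have h2 : Tendsto (fun z => |(f a : ℝ) - (f z : ℝ)|) (𝓝 a) (𝓝 0) := by
      have := h1.tendsto a
      simpa using this
    exact h2.eventually (gt_mem_nhds hε)
  · show 1 ≤ |((f x : unitInterval) : ℝ) - ((f y : unitInterval) : ℝ)|
    rw [hx, hy']; simp

theorem snf_lev3 {X : Type*} [TopologicalSpace X] [T35Space X] :
    letI : TopologicalSpace (FreeGroup X) := (freeTop X).toTopologicalSpace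
    (∀ g ∈ Lev 2 X, SnA (Lev 2 X) g) → ∀ g ∈ Lev 3 X, SnA (Lev 3 X) g := by
  intro h g hg
  classical
  letI : TopologicalSpace (FreeGroup X) := (freeTop X).toTopologicalSpace
  haveI : IsTopologicalGroup (FreeGroup X) := (freeTop X).toIsTopologicalGroup
  have hof : Continuous (FreeGroup.of : X → FreeGroup X) := continuous_of X
  have hmin : ∀ d : X → X → ℝ, Pm d → ∀ (g : FreeGroup X) (ε : ℝ), 0 < ε →
      {h | g⁻¹ * h ∈ B d (fun _ => 1) ε} ∈ 𝓝 g := by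
    intro d hd g ε hε
    have h1 := nhds_gt hd.ok g hε
    have h2 := of_continuous hd.ok hd.cont (fun x => Eventually.of_forall fun _ => rfl)
    exact (nhds_mono (freeTop_le _ h2)) h1
  obtain ⟨PE, hP1, hP2, hP3, hP4⟩ := h 1 ⟨[], by simp, rfl⟩
  have hQ : ∀ a : X × Bool, SnA (Lev 2 X) (FreeGroup.mk [a]) := fun a => h _ ⟨[a], by simp, rfl⟩
  choose QL hQ1 hQ2 hQ3 hQ4 using hQ
  -- cut the families down to the level 2
  set PE' : Set (Set (FreeGroup X)) := (fun P => P ∩ Lev 2 X) '' PE with hPE'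
  set QL' : X × Bool → Set (Set (FreeGroup X)) := fun a => (fun P => P ∩ Lev 2 X) '' QL a with hQL'
  set S := (g⁻¹).toWord with hS
  have hgS : (FreeGroup.mk S)⁻¹ = g := by rw [hS, FreeGroup.mk_toWord, inv_inv]
  have hlev1 : (1 : FreeGroup X) ∈ Lev 2 X := ⟨[], by simp, rfl⟩
  have hlevL : ∀ a : X × Bool, FreeGroup.mk [a] ∈ Lev 2 X := fun a => ⟨[a], by simp, rfl⟩
  refine ⟨Fam PE' QL' S, Fam.countable (hP1.image _) (fun a => (hQ1 a).image _) S, ?_, ?_, ?_⟩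
  · intro T hT
    constructor
    · rw [← hgS]
      refine Fam.mem ?_ ?_ S T hT
      · rintro _ ⟨P, hP, rfl⟩; exact ⟨(hP2 P hP).1, hlev1⟩
      · rintro a _ ⟨Q, hQ, rfl⟩; exact ⟨(hQ2 a Q hQ).1, hlevL a⟩
    · intro u hu hlim
      by_contra hcon
      rw [not_eventually] at hcon
      obtain ⟨θ, hθ, hθ'⟩ := extraction_of_frequently_atTop hcon
      choose W hW1 hW2 using fun m => hu (θ m)
      have h1 : ∀ U ∈ 𝓝 (1 : FreeGroup X), ∀ᶠ m in atTop, NearU U S (W m) := by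
        intro U hU
        have h2 := nearU_eventually hof hmin exists_pm_sep (S := S) FreeGroup.isReduced_toWord hU
        rw [hgS] at h2
        filter_upwards [(hlim.comp hθ.tendsto_atTop).eventually h2] with m hm
        exact hm (W m) (hW2 m) (by have := hW1 m; omega)
      obtain ⟨φ, hφ, hC⟩ := conv_of_near S W h1
      have h3 := Fam.conv (PE := PE') (QL := QL')
        (by
          rintro _ ⟨P, hP, rfl⟩ v hv hvlim
          filter_upwards [(hP2 P hP).2 v hv hvlim] with n hn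
          exact ⟨hn, hv n⟩)
        (by
          rintro a _ ⟨Q, hQ, rfl⟩ v hv hvlim
          filter_upwards [(hQ2 a Q hQ).2 v hv hvlim] with n hn
          exact ⟨hn, hv n⟩) S _ hC T hT
      obtain ⟨m, hm⟩ := h3.exists
      simp only [Function.comp] at hm
      rw [hW2] at hm
      exact hθ' _ hm
  · intro U hU
    rw [← hgS] at hU
    obtain ⟨T, hT, hTU⟩ := Fam.small (PE := PE') (QL := QL')
      (by
        intro U hU
        obtain ⟨P, hP, hPU⟩ := hP3 U hU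
        exact ⟨_, ⟨P, hP, rfl⟩, hPU⟩)
      (by
        intro a U hU
        obtain ⟨P, hP, hPU⟩ := hQ3 a U hU
        exact ⟨_, ⟨P, hP, rfl⟩, hPU⟩) S U hU
    exact ⟨T, hT, inter_subset_left.trans hTU⟩
  · refine Fam.dir ?_ ?_ S
    · rintro _ ⟨P, hP, rfl⟩ _ ⟨Q, hQ, rfl⟩
      obtain ⟨R, hR, h1⟩ := hP4 P hP Q hQ
      exact ⟨_, ⟨R, hR, rfl⟩, fun x hx => ⟨⟨(h1 hx.1).1, hx.2⟩, ⟨(h1 hx.1).2, hx.2⟩⟩⟩
    · rintro a _ ⟨P, hP, rfl⟩ _ ⟨Q, hQ, rfl⟩
      obtain ⟨R, hR, h1⟩ := hQ4 a P hP Q hQ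
      exact ⟨_, ⟨R, hR, rfl⟩, fun x hx => ⟨⟨(h1 hx.1).1, hx.2⟩, ⟨(h1 hx.1).2, hx.2⟩⟩⟩

end Pool.Agent.Q307.FTG
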