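import Pool.Agent.Q307.Yam.FU

set_option autoImplicit false
set_option linter.all false

/-! Pseudometrics from neighbourhoods of the identity; extraction of subsequences. -/

open Topology Filter Set
open scoped Uniformity

namespace Pool.Agent.Q307.FTG

open Pool.Agent.Q307.Yam

theorem exists_pseudo {X : Type*} (V : ℕ → Set (X × X)) (hrefl : ∀ n x, (x, x) ∈ V n)
    (hsymm : ∀ n x y, (x, y) ∈ V n → (y, x) ∈ V n)
    (hcomp : ∀ n x y z, (x, y) ∈ V (n + 1) → (y, z) ∈ V (n + 1) → (x, z) ∈ V n) :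
    ∃ d : X → X → ℝ, Ok d (fun _ => 1) ∧ (∀ x y, d x y < 1 → (x, y) ∈ V 0) ∧
      ∀ ε : ℝ, 0 < ε → ∃ n, ∀ x y, (x, y) ∈ V n → d x y < ε := by
  have hanti : Antitone V := by
    apply antitone_nat_of_succ_le
    rintro n ⟨x, y⟩ h
    exact hcomp n x y y h (hrefl _ y)
  let Bs : FilterBasis (X × X) :=
    { sets := Set.range V
      nonempty := ⟨V 0, 0, rfl⟩
      inter_sets := by
        rintro _ _ ⟨m, rfl⟩ ⟨n, rfl⟩
        exact ⟨V (max m n), ⟨_, rfl⟩, subset_inter (hanti (le_max_left _ _))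
          (hanti (le_max_right _ _))⟩ }
  let core : UniformSpace.Core X := UniformSpace.Core.mkOfBasis Bs
    (by rintro _ ⟨n, rfl⟩ x; exact hrefl n x)
    (by rintro _ ⟨n, rfl⟩; exact ⟨V n, ⟨n, rfl⟩, fun p hp => hsymm n _ _ hp⟩)
    (by
      rintro _ ⟨n, rfl⟩
      refine ⟨V (n + 1), ⟨n + 1, rfl⟩, ?_⟩
      rintro ⟨x, z⟩ ⟨y, h1, h2⟩
      exact hcomp n x y z h1 h2)
  letI us : UniformSpace X := UniformSpace.ofCore core
  have hB : (𝓤 X).HasBasis (fun _ : ℕ => True) V := by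
    refine ⟨fun t => ?_⟩
    show t ∈ Bs.filter ↔ _
    rw [Bs.mem_filter_iff]
    constructor
    · rintro ⟨_, ⟨n, rfl⟩, h⟩; exact ⟨n, trivial, h⟩
    · rintro ⟨n, _, h⟩; exact ⟨_, ⟨n, rfl⟩, h⟩
  haveI : (𝓤 X).IsCountablyGenerated := hB.isCountablyGenerated
  letI pm : PseudoMetricSpace X := UniformSpace.pseudoMetricSpace X
  have h0 : V 0 ∈ 𝓤 X := hB.mem_of_mem trivial
  obtain ⟨ε0, hε0, h0'⟩ := Metric.mem_uniformity_dist.1 h0
  refine ⟨fun x y => dist x y / ε0, ⟨fun x => by simp, fun x y => by positivity,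
    fun x y => by rw [dist_comm], fun x y z => ?_, fun x => le_refl _⟩, ?_, ?_⟩
  · rw [← add_div]
    exact div_le_div_of_nonneg_right (dist_triangle x y z) hε0.le
  · intro x y h
    exact h0' (by rwa [div_lt_one hε0] at h)
  · intro ε hε
    have h1 : {p : X × X | dist p.1 p.2 < ε * ε0} ∈ 𝓤 X := Metric.dist_mem_uniformity (by positivity)
    obtain ⟨n, _, hn⟩ := hB.mem_iff.1 h1
    refine ⟨n, fun x y hxy => ?_⟩
    rw [div_lt_iff₀ hε0]
    exact hn hxy

/-- continuous pseudometrics -/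
structure Pm {X : Type*} [TopologicalSpace X] (d : X → X → ℝ) : Prop where
  ok : Ok d (fun _ => 1)
  cont : ∀ x, ∀ ε : ℝ, 0 < ε → ∀ᶠ y in 𝓝 x, d x y < ε

theorem Pm.add {X : Type*} [TopologicalSpace X] {d e : X → X → ℝ} (hd : Pm d) (he : Pm e) :
    Pm (fun x y => d x y + e x y) where
  ok := ⟨fun x => by rw [hd.ok.self, he.ok.self, add_zero],
    fun x y => add_nonneg (hd.ok.nonneg x y) (he.ok.nonneg x y),
    fun x y => by rw [hd.ok.symm, he.ok.symm],
    fun x y z => by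
      have := hd.ok.tri x y z
      have := he.ok.tri x y z
      linarith,
    fun x => le_refl _⟩
  cont := by
    intro x ε hε
    filter_upwards [hd.cont x (ε / 2) (by positivity), he.cont x (ε / 2) (by positivity)] with y h1 h2
    linarith

/-- a pseudometric on a space from a neighbourhood of the identity of a group -/
theorem exists_pm {X G : Type*} [TopologicalSpace X] [Group G] [TopologicalSpace G]
    [IsTopologicalGroup G] {f : X → G} (hf : Continuous f) {U : Set G} (hU : U ∈ 𝓝 (1 : G)) :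
    ∃ d : X → X → ℝ, Pm d ∧ ∀ x y, d x y < 1 → (f x)⁻¹ * f y ∈ U ∧ f x * (f y)⁻¹ ∈ U := by
  have step : ∀ s : Set G, s ∈ 𝓝 (1 : G) → ∃ t ∈ 𝓝 (1 : G), t⁻¹ = t ∧ ∀ g ∈ t, ∀ h ∈ t, g * h ∈ s := by
    intro s hs
    obtain ⟨t, ht, ht'⟩ := exists_nhds_one_split hs
    refine ⟨t ∩ t⁻¹, inter_mem ht (inv_mem_nhds_one G ht), by rw [inter_inv, inv_inv, inter_comm],
      fun g hg h hh => ht' g hg.1 h hh.1⟩
  choose! t ht hinv hmul using step
  let W : ℕ → Set G := fun n => Nat.rec (t U) (fun _ s => t s) n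
  have hW : ∀ n, W n ∈ 𝓝 (1 : G) := by
    intro n
    induction n with
    | zero => exact ht U hU
    | succ n ih => exact ht _ ih
  have hWinv : ∀ n, (W n)⁻¹ = W n := by
    intro n
    cases n with
    | zero => exact hinv U hU
    | succ n => exact hinv _ (hW n)
  have hWmul : ∀ n, ∀ g ∈ W (n + 1), ∀ h ∈ W (n + 1), g * h ∈ W n := fun n => hmul _ (hW n)
  have hW0 : W 0 ⊆ U := by
    intro g hg
    have := hmul U hU g hg 1 (mem_of_mem_nhds (ht U hU))
    rwa [mul_one] at this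
  obtain ⟨d, hd1, hd2, hd3⟩ := exists_pseudo
    (fun n => {p : X × X | (f p.1)⁻¹ * f p.2 ∈ W n ∧ f p.1 * (f p.2)⁻¹ ∈ W n})
    (by
      intro n x
      simp only [mem_setOf_eq, inv_mul_cancel, mul_inv_cancel]
      exact ⟨mem_of_mem_nhds (hW n), mem_of_mem_nhds (hW n)⟩)
    (by
      rintro n x y ⟨h1, h2⟩
      constructor
      · rw [← hWinv n, Set.mem_inv]; simpa using h1
      · rw [← hWinv n, Set.mem_inv]; simpa using h2)
    (by
      rintro n x y z ⟨h1, h2⟩ ⟨h3, h4⟩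
      refine ⟨?_, ?_⟩
      · have := hWmul n _ h1 _ h3
        simpa [mul_assoc] using this
      · have := hWmul n _ h2 _ h4
        simpa [mul_assoc] using this)
  refine ⟨d, ⟨hd1, ?_⟩, ?_⟩
  · intro x ε hε
    obtain ⟨n, hn⟩ := hd3 ε hε
    have h1 : Tendsto (fun y => (f x)⁻¹ * f y) (𝓝 x) (𝓝 1) := by
      have : Tendsto (fun y => (f x)⁻¹ * f y) (𝓝 x) (𝓝 ((f x)⁻¹ * f x)) :=
        (continuous_const.mul hf).tendsto x
      rwa [inv_mul_cancel] at this
    have h2 : Tendsto (fun y => f x * (f y)⁻¹) (𝓝 x) (𝓝 1) := by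
      have : Tendsto (fun y => f x * (f y)⁻¹) (𝓝 x) (𝓝 (f x * (f x)⁻¹)) :=
        (continuous_const.mul hf.inv).tendsto x
      rwa [mul_inv_cancel] at this
    filter_upwards [h1 (hW n), h2 (hW n)] with y h3 h4
    exact hn x y ⟨h3, h4⟩
  · intro x y h
    have := hd2 x y h
    exact ⟨hW0 this.1, hW0 this.2⟩

/-- extraction of a subsequence on which one alternative holds -/
theorem split_aux {I M : Type*} [Nonempty I] (r : I → I → Prop)
    (hdir : ∀ i j, ∃ k, r i k ∧ r j k) (c : I → M → ℕ → Prop)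
    (hc : ∀ i j μ n, r i j → c j μ n → c i μ n) (F : Finset M) :
    ∀ ψ : ℕ → ℕ, (∀ i, ∀ᶠ n in atTop, ∃ μ ∈ F, c i μ (ψ n)) →
      ∃ μ ∈ F, ∃ φ : ℕ → ℕ, StrictMono φ ∧ ∀ i, ∀ᶠ n in atTop, c i μ (ψ (φ n)) := by
  classical
  induction F using Finset.induction_on with
  | empty =>
    intro ψ h
    obtain ⟨i⟩ := (inferInstance : Nonempty I)
    obtain ⟨n, μ, hμ, _⟩ := (h i).exists
    exact absurd hμ (Finset.notMem_empty _)
  | @insert μ F hμ ih =>
    intro ψ h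
    by_cases h1 : ∀ i, ∀ᶠ n in atTop, c i μ (ψ n)
    · exact ⟨μ, Finset.mem_insert_self _ _, id, strictMono_id, h1⟩
    push Not at h1
    obtain ⟨i0, hi0⟩ := h1
    obtain ⟨θ, hθ, hθ'⟩ := extraction_of_frequently_atTop hi0
    obtain ⟨ν, hν, φ, hφ, h2⟩ := ih (ψ ∘ θ) (by
      intro i
      obtain ⟨k, hk1, hk2⟩ := hdir i i0
      have h3 : ∀ᶠ n in atTop, ∃ μ' ∈ insert μ F, c k μ' (ψ (θ n)) :=
        hθ.tendsto_atTop.eventually (h k)
      filter_upwards [h3] with n hn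
      obtain ⟨ν, hν, hcν⟩ := hn
      rcases Finset.mem_insert.1 hν with rfl | hν
      · exact absurd (hc _ _ _ _ hk2 hcν) (hθ' n)
      · exact ⟨ν, hν, hc _ _ _ _ hk1 hcν⟩)
    exact ⟨ν, Finset.mem_insert_of_mem hν, θ ∘ φ, hθ.comp hφ, h2⟩

theorem split {I M : Type*} [Nonempty I] [Fintype M] (r : I → I → Prop)
    (hdir : ∀ i j, ∃ k, r i k ∧ r j k) (c : I → M → ℕ → Prop)
    (hc : ∀ i j μ n, r i j → c j μ n → c i μ n) (h : ∀ i, ∀ᶠ n in atTop, ∃ μ, c i μ n) :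
      ∃ μ, ∃ φ : ℕ → ℕ, StrictMono φ ∧ ∀ i, ∀ᶠ n in atTop, c i μ (φ n) := by
  obtain ⟨μ, _, h1⟩ := split_aux r hdir c hc Finset.univ id (by simpa using h)
  exact ⟨μ, h1⟩

end Pool.Agent.Q307.FTG
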