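import Pool.Agent.Q307.FTG.Pseudo

set_option autoImplicit false
set_option linter.all false

/-! The level 3 of the free topological group. -/

open Topology Filter Set
open scoped Pointwise

namespace Pool.Agent.Q307.FTG

open Pool.Agent.Q307.Yam

/-! ### countable networks of sequential neighbourhoods -/

/-- a countable network of sequential neighbourhoods at a point -/
def SnfAt {Y : Type*} [TopologicalSpace Y] (y : Y) : Prop :=
  ∃ Ps : Set (Set Y), Ps.Countable ∧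
    (∀ P ∈ Ps, y ∈ P ∧ ∀ u : ℕ → Y, Tendsto u atTop (𝓝 y) → ∀ᶠ n in atTop, u n ∈ P) ∧
    (∀ U : Set Y, IsOpen U → y ∈ U → ∃ P ∈ Ps, P ⊆ U) ∧
    (∀ P ∈ Ps, ∀ Q ∈ Ps, ∃ R ∈ Ps, R ⊆ P ∩ Q)

/-- the same for a subset, in the ambient space -/
def SnA {Y : Type*} [TopologicalSpace Y] (A : Set Y) (y : Y) : Prop :=
  ∃ Ps : Set (Set Y), Ps.Countable ∧
    (∀ P ∈ Ps, y ∈ P ∧ ∀ u : ℕ → Y, (∀ n, u n ∈ A) → Tendsto u atTop (𝓝 y) →
      ∀ᶠ n in atTop, u n ∈ P) ∧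
    (∀ U ∈ 𝓝 y, ∃ P ∈ Ps, P ∩ A ⊆ U) ∧
    (∀ P ∈ Ps, ∀ Q ∈ Ps, ∃ R ∈ Ps, R ⊆ P ∩ Q)

theorem snfAt_iff {Y : Type*} [TopologicalSpace Y] {A : Set Y} (a : A) :
    SnfAt a ↔ SnA A (a : Y) := by
  constructor
  · rintro ⟨Ps, h1, h2, h3, h4⟩
    refine ⟨(fun P => Subtype.val '' P) '' Ps, h1.image _, ?_, ?_, ?_⟩
    · rintro _ ⟨P, hP, rfl⟩
      refine ⟨⟨a, (h2 P hP).1, rfl⟩, fun u hu hlim => ?_⟩
      have h5 := (h2 P hP).2 (fun n => ⟨u n, hu n⟩) (by rw [tendsto_subtype_rng]; exact hlim)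
      filter_upwards [h5] with n hn
      exact ⟨_, hn, rfl⟩
    · intro U hU
      obtain ⟨V, hVU, hV, haV⟩ := mem_nhds_iff.1 hU
      obtain ⟨P, hP, hPU⟩ := h3 (Subtype.val ⁻¹' V) (hV.preimage continuous_subtype_val) haV
      refine ⟨_, ⟨P, hP, rfl⟩, ?_⟩
      rintro _ ⟨⟨p, hp, rfl⟩, _⟩
      exact hVU (hPU hp)
    · rintro _ ⟨P, hP, rfl⟩ _ ⟨Q, hQ, rfl⟩
      obtain ⟨R, hR, h⟩ := h4 P hP Q hQ
      refine ⟨_, ⟨R, hR, rfl⟩, ?_⟩
      rintro _ ⟨r, hr, rfl⟩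
      exact ⟨⟨r, (h hr).1, rfl⟩, ⟨r, (h hr).2, rfl⟩⟩
  · rintro ⟨Ps, h1, h2, h3, h4⟩
    refine ⟨(fun P => Subtype.val ⁻¹' P) '' Ps, h1.image _, ?_, ?_, ?_⟩
    · rintro _ ⟨P, hP, rfl⟩
      refine ⟨(h2 P hP).1, fun u hlim => ?_⟩
      exact (h2 P hP).2 (fun n => (u n : Y)) (fun n => (u n).2) (tendsto_subtype_rng.1 hlim)
    · intro U hU haU
      obtain ⟨V, hV, rfl⟩ := isOpen_induced_iff.1 hU
      obtain ⟨P, hP, hPU⟩ := h3 V (hV.mem_nhds haU)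
      exact ⟨_, ⟨P, hP, rfl⟩, fun p hp => hPU ⟨hp, p.2⟩⟩
    · rintro _ ⟨P, hP, rfl⟩ _ ⟨Q, hQ, rfl⟩
      obtain ⟨R, hR, h⟩ := h4 P hP Q hQ
      exact ⟨_, ⟨R, hR, rfl⟩, fun r hr => h hr⟩

theorem SnA.mono {Y : Type*} [TopologicalSpace Y] {A A' : Set Y} (h : A' ⊆ A) {y : Y}
    (hA : SnA A y) : SnA A' y := by
  obtain ⟨Ps, h1, h2, h3, h4⟩ := hA
  refine ⟨Ps, h1, fun P hP => ⟨(h2 P hP).1, fun u hu => (h2 P hP).2 u fun n => h (hu n)⟩, ?_, h4⟩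
  intro U hU
  obtain ⟨P, hP, hPU⟩ := h3 U hU
  exact ⟨P, hP, fun p hp => hPU ⟨hp.1, h hp.2⟩⟩

/-! ### Words near a reduced word -/

variable {X : Type*}

theorem mks {L L' : List (X × Bool)} :
    FreeGroup.mk (L ++ L') = FreeGroup.mk L * FreeGroup.mk L' := by
  rw [FreeGroup.mul_mk]

theorem mkc (a : X × Bool) (L : List (X × Bool)) :
    FreeGroup.mk (a :: L) = FreeGroup.mk [a] * FreeGroup.mk L := by
  rw [FreeGroup.mul_mk]; rfl

/-- the words of length at most `n` -/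
def Lev (n : ℕ) (X : Type*) : Set (FreeGroup X) :=
  {w | ∃ L : List (X × Bool), L.length ≤ n ∧ FreeGroup.mk L = w}

/-- `W` is `U`-close to the inverse of `S` -/
def NearU (U : Set (FreeGroup X)) : List (X × Bool) → List (X × Bool) → Prop
  | [], W => W.length ≤ 2 ∧ FreeGroup.mk W ∈ U
  | (x, b) :: S, W => ∃ (W1 : List (X × Bool)) (y : X) (V : List (X × Bool)),
      W = W1 ++ (y, !b) :: V ∧ (FreeGroup.mk [(x, !b)])⁻¹ * FreeGroup.mk [(y, !b)] ∈ U ∧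
      V.length ≤ 2 ∧ FreeGroup.mk V ∈ U ∧ NearU U S W1

theorem NearU.mono {U U' : Set (FreeGroup X)} (h : U ⊆ U') : ∀ {S W : List (X × Bool)},
    NearU U S W → NearU U' S W := by
  intro S
  induction S with
  | nil => intro W hW; exact ⟨hW.1, h hW.2⟩
  | cons a S ih =>
    obtain ⟨x, b⟩ := a
    rintro W ⟨W1, y, V, h1, h2, h3, h4, h5⟩
    exact ⟨W1, y, V, h1, h h2, h3, h h4, ih h5⟩

theorem mk_false (x : X) : FreeGroup.mk [(x, false)] = (FreeGroup.of x)⁻¹ := by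
  simp [FreeGroup.of, FreeGroup.inv_mk, FreeGroup.invRev]

theorem mk_true (x : X) : FreeGroup.mk [(x, true)] = FreeGroup.of x := rfl

theorem nearU_of_near {d : X → X → ℝ} {U : Set (FreeGroup X)} (h1 : (1 : FreeGroup X) ∈ U)
    (hd : ∀ x y, d x y < 1 → (FreeGroup.of x)⁻¹ * FreeGroup.of y ∈ U ∧
      FreeGroup.of x * (FreeGroup.of y)⁻¹ ∈ U) : ∀ {S W : List (X × Bool)},
    Near d 1 S W → NearU U S W := by
  have hSm : ∀ V : List (X × Bool), Sm d 1 V → V.length ≤ 2 ∧ FreeGroup.mk V ∈ U := by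
    rintro V (rfl | ⟨p, q, b, rfl, h⟩)
    · exact ⟨by simp, h1⟩
    · refine ⟨by simp, ?_⟩
      rw [mkc]
      cases b
      · exact (hd p q h).1
      · have := (hd p q h).2
        rw [← mk_false] at this
        exact this
  have hL : ∀ (x y : X) (b : Bool), d x y < 1 →
      (FreeGroup.mk [(x, b)])⁻¹ * FreeGroup.mk [(y, b)] ∈ U := by
    intro x y b h
    cases b
    · rw [mk_false, mk_false, inv_inv]; exact (hd x y h).2
    · exact (hd x y h).1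
  intro S
  induction S with
  | nil => intro W h; exact hSm W h
  | cons a S ih =>
    obtain ⟨x, b⟩ := a
    rintro W ⟨W1, y, V, h1, h2, h3, h5⟩
    exact ⟨W1, y, V, h1, hL x y _ h2, (hSm V h3).1, (hSm V h3).2, ih h5⟩

theorem Sep.mono_d {d e : X → X → ℝ} {ε : ℝ} {S : List (X × Bool)} (h : ∀ x y, d x y ≤ e x y)
    (hs : Sep d ε S) : Sep e ε S :=
  List.IsChain.imp (fun a b h1 h2 => (h1 h2).trans (h _ _)) hs

theorem pm_zero [TopologicalSpace X] : Pm (fun _ _ : X => (0 : ℝ)) where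
  ok := ⟨fun _ => rfl, fun _ _ => le_refl _, fun _ _ => rfl, fun _ _ _ => by simp,
    fun _ => le_refl _⟩
  cont := fun x ε hε => Eventually.of_forall fun _ => hε

theorem exists_sep' [TopologicalSpace X]
    (hpos : ∀ x y : X, x ≠ y → ∃ d : X → X → ℝ, Pm d ∧ 1 ≤ d x y) :
    ∀ (S : List (X × Bool)), FreeGroup.IsReduced S →
    ∃ d : X → X → ℝ, Pm d ∧ ∃ ε : ℝ, 0 < ε ∧ Sep d ε S := by
  intro S
  induction S with
  | nil => intro _; exact ⟨_, pm_zero, 1, one_pos, List.isChain_nil⟩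
  | cons a S ih =>
    intro h
    rcases S with _ | ⟨b, S⟩
    · exact ⟨_, pm_zero, 1, one_pos, List.isChain_singleton _⟩
    · have h' : List.IsChain (fun (a b : X × Bool) => a.1 = b.1 → a.2 = b.2) (a :: b :: S) := h
      obtain ⟨h1, h2⟩ := List.isChain_cons_cons.1 h'
      obtain ⟨d, hd, ε, hε, hs⟩ := ih h2
      by_cases hab : a.1 = b.1
      · refine ⟨d, hd, ε, hε, List.isChain_cons_cons.2 ⟨fun h3 => absurd (h1 hab) h3, hs⟩⟩
      · obtain ⟨e, he, he1⟩ := hpos _ _ hab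
        refine ⟨_, hd.add he, min ε 1, lt_min hε one_pos,
          List.isChain_cons_cons.2 ⟨fun _ => ?_, ?_⟩⟩
        · have := hd.ok.nonneg a.1 b.1
          exact (min_le_right _ _).trans (by linarith)
        · have h5 : Sep (fun x y => d x y + e x y) (min ε 1) (b :: S) :=
            Sep.mono_d (fun x y => by have := he.ok.nonneg x y; linarith)
              (hs.mono (min_le_left _ _))
          exact h5

section top

variable [TopologicalSpace X] [TopologicalSpace (FreeGroup X)] [IsTopologicalGroup (FreeGroup X)]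

theorem nearU_eventually (hof : Continuous (FreeGroup.of : X → FreeGroup X))
    (hmin : ∀ d : X → X → ℝ, Pm d → ∀ (g : FreeGroup X) (ε : ℝ), 0 < ε →
      {h | g⁻¹ * h ∈ B d (fun _ => 1) ε} ∈ 𝓝 g)
    (hpos : ∀ x y : X, x ≠ y → ∃ d : X → X → ℝ, Pm d ∧ 1 ≤ d x y)
    {S : List (X × Bool)} (hS : FreeGroup.IsReduced S)
    {U : Set (FreeGroup X)} (hU : U ∈ 𝓝 (1 : FreeGroup X)) :
    ∀ᶠ h in 𝓝 (FreeGroup.mk S)⁻¹, ∀ W : List (X × Bool), FreeGroup.mk W = h →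
      W.length ≤ S.length + 3 → NearU U S W := by
  obtain ⟨d, hd, ε, hε, hs⟩ := exists_sep' hpos S hS
  obtain ⟨e, he, he'⟩ := exists_pm hof hU
  have hde := hd.add he
  filter_upwards [hmin _ hde (FreeGroup.mk S)⁻¹ (min ε 1) (lt_min hε one_pos)] with h hh W hW hl
  subst hW
  rw [inv_inv, ← mks] at hh
  obtain ⟨c, hM, hc⟩ := (mem_B hde.ok).1 hh
  have h5 : Sep (fun x y => d x y + e x y) (min ε 1) S :=
    Sep.mono_d (fun x y => by have := he.ok.nonneg x y; linarith) (hs.mono (min_le_left _ _))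
  have h6 := near_of_M hde.ok S W c hM hc h5 hl
  refine nearU_of_near (mem_of_mem_nhds hU) (d := fun x y => d x y + e x y) ?_
    (h6.mono (min_le_right _ _))
  intro x y hxy
  apply he'
  have := hd.ok.nonneg x y
  linarith

/-- convergence with a fixed pattern -/
def Conv : List (X × Bool) → (ℕ → List (X × Bool)) → Prop
  | [], W => (∀ m, (W m).length ≤ 2) ∧ Tendsto (fun m => FreeGroup.mk (W m)) atTop (𝓝 1)
  | (x, b) :: S, W => ∃ (W1 : ℕ → List (X × Bool)) (y : ℕ → X) (V : ℕ → List (X × Bool)),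
      (∀ m, W m = W1 m ++ (y m, !b) :: V m) ∧ (∀ m, (V m).length ≤ 2) ∧
      Tendsto (fun m => FreeGroup.mk [(y m, !b)]) atTop (𝓝 (FreeGroup.mk [(x, !b)])) ∧
      Tendsto (fun m => FreeGroup.mk (V m)) atTop (𝓝 1) ∧ Conv S W1

theorem conv_of_near : ∀ (S : List (X × Bool)) (W : ℕ → List (X × Bool)),
    (∀ U ∈ 𝓝 (1 : FreeGroup X), ∀ᶠ m in atTop, NearU U S (W m)) →
    ∃ φ : ℕ → ℕ, StrictMono φ ∧ Conv S (W ∘ φ) := by
  intro S
  induction S with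
  | nil =>
    intro W h
    obtain ⟨N, hN⟩ := eventually_atTop.1 (h univ univ_mem)
    refine ⟨fun m => m + N, fun a b h => by simpa using h, fun m => (hN _ (by simp)).1, ?_⟩
    intro U hU
    have h1 : Tendsto (fun m : ℕ => m + N) atTop atTop := tendsto_add_atTop_nat N
    rw [mem_map]
    filter_upwards [h1.eventually (h U hU)] with m hm
    exact hm.2
  | cons a S ih =>
    obtain ⟨x, b⟩ := a
    intro W h
    let c : {U : Set (FreeGroup X) // U ∈ 𝓝 (1 : FreeGroup X)} → Fin 3 → ℕ → Prop :=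
      fun U ℓ m => ∃ (W1 : List (X × Bool)) (y : X) (V : List (X × Bool)),
        V.length = (ℓ : ℕ) ∧ W m = W1 ++ (y, !b) :: V ∧
        (FreeGroup.mk [(x, !b)])⁻¹ * FreeGroup.mk [(y, !b)] ∈ U.1 ∧
        FreeGroup.mk V ∈ U.1 ∧ NearU U.1 S W1
    haveI : Nonempty {U : Set (FreeGroup X) // U ∈ 𝓝 (1 : FreeGroup X)} := ⟨⟨univ, univ_mem⟩⟩
    obtain ⟨ℓ, φ, hφ, hc⟩ := split (I := {U : Set (FreeGroup X) // U ∈ 𝓝 (1 : FreeGroup X)})
      (fun U U' => U'.1 ⊆ U.1)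
      (fun U U' => ⟨⟨U.1 ∩ U'.1, inter_mem U.2 U'.2⟩, inter_subset_left, inter_subset_right⟩) c
      (by
        rintro U U' ℓ m hUU ⟨W1, y, V, h1, h2, h3, h4, h5⟩
        exact ⟨W1, y, V, h1, h2, hUU h3, hUU h4, h5.mono hUU⟩)
      (by
        rintro ⟨U, hU⟩
        filter_upwards [h U hU] with m hm
        obtain ⟨W1, y, V, h1, h2, h3, h4, h5⟩ := hm
        exact ⟨⟨V.length, by omega⟩, W1, y, V, rfl, h1, h2, h4, h5⟩)
    obtain ⟨N, hN⟩ := eventually_atTop.1 (hc ⟨univ, univ_mem⟩)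
    have hN' : ∀ m, c ⟨univ, univ_mem⟩ ℓ (φ (m + N)) := fun m => hN _ (by simp)
    choose W1 y V h1 h2 h3 h4 h5 using hN'
    have h6 : ∀ U ∈ 𝓝 (1 : FreeGroup X), ∀ᶠ m in atTop,
        (FreeGroup.mk [(x, !b)])⁻¹ * FreeGroup.mk [(y m, !b)] ∈ U ∧
        FreeGroup.mk (V m) ∈ U ∧ NearU U S (W1 m) := by
      intro U hU
      have h7 : Tendsto (fun m : ℕ => m + N) atTop atTop := tendsto_add_atTop_nat N
      filter_upwards [h7.eventually (hc ⟨U, hU⟩)] with m hm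
      obtain ⟨W1', y', V', h1', h2', h3', h4', h5'⟩ := hm
      have h8 : W1 m ++ (y m, !b) :: V m = W1' ++ (y', !b) :: V' := (h2 m).symm.trans h2'
      obtain ⟨h9, h10⟩ := List.append_inj' h8 (by simp [h1 m, h1'])
      simp only [List.cons.injEq, Prod.mk.injEq, and_true] at h10
      obtain ⟨rfl, rfl⟩ := h10
      subst h9
      exact ⟨h3', h4', h5'⟩
    obtain ⟨φ2, hφ2, hC⟩ := ih W1 (fun U hU => by
      filter_upwards [h6 U hU] with m hm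
      exact hm.2.2)
    refine ⟨fun m => φ (φ2 m + N), fun p q hpq => hφ (by have := hφ2 hpq; omega), W1 ∘ φ2, y ∘ φ2,
      V ∘ φ2, fun m => h2 (φ2 m), fun m => ?_, ?_, ?_, hC⟩
    · have := h1 (φ2 m)
      have := ℓ.2
      simp only [Function.comp]
      omega
    · have h7 : Tendsto (fun m => (FreeGroup.mk [(x, !b)])⁻¹ * FreeGroup.mk [(y m, !b)]) atTop
          (𝓝 1) := by
        intro U hU
        rw [mem_map]
        filter_upwards [h6 U hU] with m hm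
        exact hm.1
      have h8 := (tendsto_const_nhds (x := FreeGroup.mk [(x, !b)]) (f := (atTop : Filter ℕ))).mul h7
      simp only [mul_inv_cancel_left, mul_one] at h8
      exact h8.comp hφ2.tendsto_atTop
    · have h7 : Tendsto (fun m => FreeGroup.mk (V m)) atTop (𝓝 1) := by
        intro U hU
        rw [mem_map]
        filter_upwards [h6 U hU] with m hm
        exact hm.2.1
      exact h7.comp hφ2.tendsto_atTop

/-! ### the families -/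

/-- the products of network sets along a word -/
def Fam (PE : Set (Set (FreeGroup X))) (QL : X × Bool → Set (Set (FreeGroup X))) :
    List (X × Bool) → Set (Set (FreeGroup X))
  | [] => PE
  | (x, b) :: S => (fun p : Set (FreeGroup X) × (Set (FreeGroup X) × Set (FreeGroup X)) =>
      p.1 * (p.2.1 * p.2.2)) '' (Fam PE QL S ×ˢ (QL (x, !b) ×ˢ PE))

variable {PE : Set (Set (FreeGroup X))} {QL : X × Bool → Set (Set (FreeGroup X))}

theorem Fam.countable (hP : PE.Countable) (hQ : ∀ a, (QL a).Countable) :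
    ∀ S, (Fam PE QL S).Countable := by
  intro S
  induction S with
  | nil => exact hP
  | cons a S ih =>
    obtain ⟨x, b⟩ := a
    exact (ih.prod ((hQ _).prod hP)).image _

theorem inv_mk_cons (x : X) (b : Bool) (S : List (X × Bool)) :
    (FreeGroup.mk ((x, b) :: S))⁻¹ = (FreeGroup.mk S)⁻¹ * (FreeGroup.mk [(x, !b)] * 1) := by
  rw [mkc (x, b) S, mul_inv_rev, mul_one]
  rfl

theorem Fam.mem (hP : ∀ P ∈ PE, (1 : FreeGroup X) ∈ P) (hQ : ∀ a, ∀ Q ∈ QL a, FreeGroup.mk [a] ∈ Q) :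
    ∀ S, ∀ T ∈ Fam PE QL S, (FreeGroup.mk S)⁻¹ ∈ T := by
  intro S
  induction S with
  | nil =>
    intro T hT
    have : (FreeGroup.mk ([] : List (X × Bool)))⁻¹ = 1 := inv_one
    rw [this]
    exact hP T hT
  | cons a S ih =>
    obtain ⟨x, b⟩ := a
    rintro _ ⟨⟨R, Q, P⟩, ⟨hR, hQ', hP'⟩, rfl⟩
    rw [inv_mk_cons]
    exact mul_mem_mul (ih R hR) (mul_mem_mul (hQ _ Q hQ') (hP P hP'))

theorem Fam.dir (hP : ∀ P ∈ PE, ∀ Q ∈ PE, ∃ R ∈ PE, R ⊆ P ∩ Q)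
    (hQ : ∀ a, ∀ P ∈ QL a, ∀ Q ∈ QL a, ∃ R ∈ QL a, R ⊆ P ∩ Q) :
    ∀ S, ∀ P ∈ Fam PE QL S, ∀ Q ∈ Fam PE QL S, ∃ R ∈ Fam PE QL S, R ⊆ P ∩ Q := by
  intro S
  induction S with
  | nil => exact hP
  | cons a S ih =>
    obtain ⟨x, b⟩ := a
    rintro _ ⟨⟨R, Q, P⟩, ⟨hR, hQ1, hP1⟩, rfl⟩ _ ⟨⟨R', Q', P'⟩, ⟨hR', hQ', hP'⟩, rfl⟩
    obtain ⟨R2, hR2, h1⟩ := ih R hR R' hR'
    obtain ⟨Q2, hQ2, h2⟩ := hQ _ Q hQ1 Q' hQ'
    obtain ⟨P2, hP2, h3⟩ := hP P hP1 P' hP'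
    refine ⟨_, ⟨⟨R2, Q2, P2⟩, ⟨hR2, hQ2, hP2⟩, rfl⟩, subset_inter ?_ ?_⟩
    · exact mul_subset_mul (h1.trans inter_subset_left)
        (mul_subset_mul (h2.trans inter_subset_left) (h3.trans inter_subset_left))
    · exact mul_subset_mul (h1.trans inter_subset_right)
        (mul_subset_mul (h2.trans inter_subset_right) (h3.trans inter_subset_right))

theorem Fam.small (hP : ∀ U ∈ 𝓝 (1 : FreeGroup X), ∃ P ∈ PE, P ⊆ U)
    (hQ : ∀ a, ∀ U ∈ 𝓝 (FreeGroup.mk [a]), ∃ Q ∈ QL a, Q ⊆ U) :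
    ∀ S, ∀ U ∈ 𝓝 (FreeGroup.mk S)⁻¹, ∃ T ∈ Fam PE QL S, T ⊆ U := by
  intro S
  induction S with
  | nil =>
    intro U hU
    have : (FreeGroup.mk ([] : List (X × Bool)))⁻¹ = 1 := inv_one
    rw [this] at hU
    exact hP U hU
  | cons a S ih =>
    obtain ⟨x, b⟩ := a
    intro U hU
    rw [inv_mk_cons] at hU
    have h1 : Tendsto (fun p : FreeGroup X × (FreeGroup X × FreeGroup X) => p.1 * (p.2.1 * p.2.2))
        (𝓝 ((FreeGroup.mk S)⁻¹, (FreeGroup.mk [(x, !b)], 1)))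
        (𝓝 ((FreeGroup.mk S)⁻¹ * (FreeGroup.mk [(x, !b)] * 1))) :=
      (continuous_fst.mul ((continuous_fst.comp continuous_snd).mul
        (continuous_snd.comp continuous_snd))).tendsto _
    have h2 := h1 hU
    rw [mem_map, nhds_prod_eq, nhds_prod_eq, mem_prod_iff] at h2
    obtain ⟨U1, hU1, U2, hU2, h3⟩ := h2
    obtain ⟨U3, hU3, U4, hU4, h4⟩ := mem_prod_iff.1 hU2
    obtain ⟨R, hR, hR'⟩ := ih U1 hU1
    obtain ⟨Q, hQ1, hQ'⟩ := hQ _ U3 hU3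
    obtain ⟨P, hP1, hP'⟩ := hP U4 hU4
    refine ⟨_, ⟨⟨R, Q, P⟩, ⟨hR, hQ1, hP1⟩, rfl⟩, ?_⟩
    rintro _ ⟨r, hr, _, ⟨q, hq, p, hp, rfl⟩, rfl⟩
    exact h3 (show (r, (q, p)) ∈ U1 ×ˢ U2 from ⟨hR' hr, h4 ⟨hQ' hq, hP' hp⟩⟩)

theorem Fam.conv (hP : ∀ P ∈ PE, ∀ u : ℕ → FreeGroup X, (∀ n, u n ∈ Lev 2 X) →
      Tendsto u atTop (𝓝 1) → ∀ᶠ n in atTop, u n ∈ P)
    (hQ : ∀ a, ∀ Q ∈ QL a, ∀ u : ℕ → FreeGroup X, (∀ n, u n ∈ Lev 2 X) →
      Tendsto u atTop (𝓝 (FreeGroup.mk [a])) → ∀ᶠ n in atTop, u n ∈ Q) :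
    ∀ (S : List (X × Bool)) (W : ℕ → List (X × Bool)), Conv S W → ∀ T ∈ Fam PE QL S,
      ∀ᶠ m in atTop, FreeGroup.mk (W m) ∈ T := by
  intro S
  induction S with
  | nil =>
    intro W hW T hT
    exact hP T hT _ (fun n => ⟨_, hW.1 n, rfl⟩) hW.2
  | cons a S ih =>
    obtain ⟨x, b⟩ := a
    rintro W ⟨W1, y, V, h1, h2, h3, h4, h5⟩ _ ⟨⟨R, Q, P⟩, ⟨hR, hQ1, hP1⟩, rfl⟩
    filter_upwards [ih W1 h5 R hR,
      hQ _ Q hQ1 (fun m => FreeGroup.mk [(y m, !b)]) (fun n => ⟨_, by simp, rfl⟩) h3,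
      hP P hP1 _ (fun n => ⟨_, h2 n, rfl⟩) h4] with m m1 m2 m3
    rw [h1 m, mks, mkc (y m, !b)]
    exact mul_mem_mul m1 (mul_mem_mul m2 m3)

end top

end Pool.Agent.Q307.FTG
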